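import Mathlib

/-!
MP_dc37f8_co, lemma 9, discrete form: the elementary parts.

* `hoelder3` : Hoelder's inequality with a free density.
* `st p R m = 4 p^(2m) R / (1 + p^(2m) R)^2` (this is `sech^2`), bounds for sums over `m`.
-/

namespace Pool.Agent.Work.DC28

open Finset

/-- Hoelder with a free density. -/
theorem hoelder3 {ι : Type*} (s : Finset ι) (x W : ι → ℝ)
    (hx : ∀ i ∈ s, 0 ≤ x i) (hW : ∀ i ∈ s, 0 < W i) :
    (∑ i ∈ s, (x i) ^ (2 / 3 : ℝ)) ^ 3 ≤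
      (∑ i ∈ s, x i ^ 2 / W i ^ 2) * (∑ i ∈ s, W i) ^ 2 := by
  have hpq : (3 : ℝ).HolderConjugate (3 / 2 : ℝ) := by
    rw [Real.holderConjugate_iff]
    norm_num
  have h := Real.inner_le_Lp_mul_Lq_of_nonneg s (f := fun i => (x i ^ 2 / W i ^ 2) ^ (1 / 3 : ℝ))
    (g := fun i => (W i) ^ (2 / 3 : ℝ)) hpq
    (fun i hi => by
      have := hW i hi
      positivity)
    (fun i hi => by
      have := hW i hi
      positivity)
  have e1 : ∀ i ∈ s, (x i ^ 2 / W i ^ 2) ^ (1 / 3 : ℝ) * (W i) ^ (2 / 3 : ℝ)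
      = (x i) ^ (2 / 3 : ℝ) := by
    intro i hi
    have hw := hW i hi
    have hxi := hx i hi
    rw [Real.div_rpow (by positivity) (by positivity)]
    rw [← Real.rpow_natCast (x i) 2, ← Real.rpow_natCast (W i) 2, ← Real.rpow_mul hxi,
      ← Real.rpow_mul hw.le]
    have : ((2 : ℕ) : ℝ) * (1 / 3 : ℝ) = 2 / 3 := by norm_num
    rw [this]
    field_simp
  have e2 : ∀ i ∈ s, ((x i ^ 2 / W i ^ 2) ^ (1 / 3 : ℝ)) ^ (3 : ℝ) = x i ^ 2 / W i ^ 2 := by
    intro i hi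
    have hw := hW i hi
    rw [← Real.rpow_mul (by positivity)]
    norm_num
  have e3 : ∀ i ∈ s, ((W i) ^ (2 / 3 : ℝ)) ^ (3 / 2 : ℝ) = W i := by
    intro i hi
    have hw := hW i hi
    rw [← Real.rpow_mul hw.le]
    norm_num
  rw [sum_congr rfl e1, sum_congr rfl e2, sum_congr rfl e3] at h
  set A := ∑ i ∈ s, x i ^ 2 / W i ^ 2 with hA
  set B := ∑ i ∈ s, W i with hB
  have hA0 : 0 ≤ A := sum_nonneg fun i hi => by positivity
  have hB0 : 0 ≤ B := sum_nonneg fun i hi => (hW i hi).le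
  have hL0 : 0 ≤ ∑ i ∈ s, (x i) ^ (2 / 3 : ℝ) := sum_nonneg fun i hi => by
    have := hx i hi
    positivity
  calc (∑ i ∈ s, (x i) ^ (2 / 3 : ℝ)) ^ 3 ≤ (A ^ (1 / (3 : ℝ)) * B ^ (1 / (3 / 2 : ℝ))) ^ 3 :=
        pow_le_pow_left₀ hL0 h 3
    _ = A * B ^ 2 := by
        rw [mul_pow]
        congr 1
        · rw [← Real.rpow_natCast, ← Real.rpow_mul hA0]
          norm_num
        · rw [← Real.rpow_natCast, ← Real.rpow_mul hB0, ← Real.rpow_natCast]
          norm_num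

/-- the `sech^2` term -/
noncomputable def st (p R : ℝ) (m : ℤ) : ℝ := 4 * (p ^ (2 * m) * R) / (1 + p ^ (2 * m) * R) ^ 2

theorem st_nonneg {p R : ℝ} (hp : 0 < p) (hR : 0 < R) (m : ℤ) : 0 ≤ st p R m := by
  unfold st
  positivity

theorem st_le_one {p R : ℝ} (hp : 0 < p) (hR : 0 < R) (m : ℤ) : st p R m ≤ 1 := by
  unfold st
  have : 0 < p ^ (2 * m) * R := by positivity
  rw [div_le_one (by positivity)]
  nlinarith [sq_nonneg (1 - p ^ (2 * m) * R)]

/-- half integral `tanh` -/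
noncomputable def th (p R : ℝ) (m : ℤ) : ℝ :=
  (p ^ (2 * m + 1) * R - 1) / (p ^ (2 * m + 1) * R + 1)

theorem th_lt_one {p R : ℝ} (hp : 0 < p) (hR : 0 < R) (m : ℤ) : th p R m ≤ 1 := by
  unfold th
  have : 0 < p ^ (2 * m + 1) * R := by positivity
  rw [div_le_one (by positivity)]
  linarith

theorem neg_one_lt_th {p R : ℝ} (hp : 0 < p) (hR : 0 < R) (m : ℤ) : -1 ≤ th p R m := by
  unfold th
  have : 0 < p ^ (2 * m + 1) * R := by positivity
  rw [le_div_iff₀ (by positivity)]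
  linarith

theorem st_le_th {p R : ℝ} (hp : 1 < p) (hR : 0 < R) (m : ℤ) :
    st p R m ≤ (1 / 2) * ((p + 1) / (p - 1)) * (th p R m - th p R (m - 1)) := by
  have hp0 : 0 < p := by linarith
  set y := p ^ (2 * m) * R with hy
  have hy0 : 0 < y := by positivity
  have h1 : p ^ (2 * m + 1) * R = p * y := by
    rw [hy, zpow_add₀ hp0.ne', zpow_one]; ring
  have h2 : p ^ (2 * (m - 1) + 1) * R = y / p := by
    rw [hy, show 2 * (m - 1) + 1 = 2 * m - 1 by ring, zpow_sub₀ hp0.ne', zpow_one]; ring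
  unfold st th
  rw [← hy, h1, h2]
  have hp1 : 0 < p - 1 := by linarith
  have key : (1 / 2) * ((p + 1) / (p - 1)) * ((p * y - 1) / (p * y + 1) - (y / p - 1) / (y / p + 1))
      = y * (p + 1) ^ 2 / ((p * y + 1) * (y + p)) := by
    field_simp
    ring
  rw [key, div_le_div_iff₀ (by positivity) (by positivity)]
  nlinarith [mul_nonneg (mul_nonneg hy0.le (sq_nonneg (p - 1))) (sq_nonneg (y - 1))]

theorem sum_Ico_th {p R : ℝ} (a : ℤ) (n : ℕ) :
    ∑ k ∈ range n, (th p R (a + k) - th p R (a + k - 1)) = th p R (a + n - 1) - th p R (a - 1) := by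
  induction n with
  | zero => simp
  | succ n ih =>
    rw [sum_range_succ, ih]
    push_cast
    ring_nf

/-- `sum_m sech^2 <= coth(L/2) = (p+1)/(p-1)` for every shift. -/
theorem sum_st_le {p R : ℝ} (hp : 1 < p) (hR : 0 < R) (M : Finset ℤ) :
    ∑ m ∈ M, st p R m ≤ (p + 1) / (p - 1) := by
  have hp0 : 0 < p := by linarith
  have hp1 : 0 < p - 1 := by linarith
  -- cover M by an interval
  obtain ⟨K, hK⟩ : ∃ K : ℕ, ∀ m ∈ M, -(K : ℤ) ≤ m ∧ m ≤ K := by
    refine ⟨M.sup Int.natAbs, fun m hm => ?_⟩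
    have : m.natAbs ≤ M.sup Int.natAbs := le_sup (f := Int.natAbs) hm
    constructor <;> omega
  have hsub : M ⊆ (range (2 * K + 1)).image (fun k : ℕ => -(K : ℤ) + k) := by
    intro m hm
    obtain ⟨h1, h2⟩ := hK m hm
    refine mem_image.2 ⟨(m + K).toNat, mem_range.2 (by omega), ?_⟩
    have : ((m + K).toNat : ℤ) = m + K := Int.toNat_of_nonneg (by omega)
    rw [this]; ring
  calc ∑ m ∈ M, st p R m
      ≤ ∑ m ∈ (range (2 * K + 1)).image (fun k : ℕ => -(K : ℤ) + k), st p R m :=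
        sum_le_sum_of_subset_of_nonneg hsub fun m _ _ => st_nonneg hp0 hR m
    _ = ∑ k ∈ range (2 * K + 1), st p R (-(K : ℤ) + k) := by
        rw [sum_image]
        intro a _ b _ h
        simpa using h
    _ ≤ ∑ k ∈ range (2 * K + 1), (1 / 2) * ((p + 1) / (p - 1)) *
          (th p R (-(K : ℤ) + k) - th p R (-(K : ℤ) + k - 1)) :=
        sum_le_sum fun k _ => st_le_th hp hR _
    _ = (1 / 2) * ((p + 1) / (p - 1)) *
          (th p R (-(K : ℤ) + (2 * K + 1 : ℕ) - 1) - th p R (-(K : ℤ) - 1)) := by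
        rw [← mul_sum, sum_Ico_th]
    _ ≤ (1 / 2) * ((p + 1) / (p - 1)) * 2 := by
        apply mul_le_mul_of_nonneg_left _ (by positivity)
        have := th_lt_one hp0 hR (-(K : ℤ) + (2 * K + 1 : ℕ) - 1)
        have := neg_one_lt_th hp0 hR (-(K : ℤ) - 1)
        linarith
    _ = (p + 1) / (p - 1) := by ring

end Pool.Agent.Work.DC28
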