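import Mathlib
import Pool.Agent.Work.MP_dc37f8_h28.SechSum

/-!
MP_dc37f8_co, lemma 9: bounds for `sum_m sech^2(m log p - f)` over finite sets of integers `m`,
all shifts `f`.
-/

namespace Pool.Agent.Work.DC28

open Finset Real

theorem st_shift {p R : ℝ} (hp : 0 < p) (m j : ℤ) : st p R m = st p (R * p ^ (2 * j)) (m - j) := by
  unfold st
  have : p ^ (2 * (m - j)) * (R * p ^ (2 * j)) = p ^ (2 * m) * R := by
    rw [show 2 * m = 2 * (m - j) + 2 * j by ring, zpow_add₀ hp.ne']; ring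
  rw [this]

theorem exists_shift {P R : ℝ} (hP : 1 < P) (hR : 0 < R) :
    ∃ j : ℤ, P⁻¹ ≤ R * P ^ (2 * j) ∧ R * P ^ (2 * j) ≤ P := by
  have hP0 : 0 < P := by linarith
  obtain ⟨n, hn1, hn2⟩ := exists_mem_Ico_zpow (x := R * P) (y := P ^ 2) (by positivity)
    (by nlinarith)
  refine ⟨-n, ?_, ?_⟩
  · have e : (P ^ 2) ^ n = P ^ (2 * n) := by
      rw [← zpow_natCast P 2, ← zpow_mul]; rfl
    rw [e] at hn1
    have h1 : P ^ (2 * n) * P ^ (2 * -n) = 1 := by
      rw [← zpow_add₀ hP0.ne']; simp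
    have h2 : (0 : ℝ) < P ^ (2 * -n) := by positivity
    have h3 := mul_le_mul_of_nonneg_right hn1 h2.le
    rw [h1] at h3
    rw [inv_le_iff_one_le_mul₀ hP0]
    calc (1 : ℝ) ≤ R * P * P ^ (2 * -n) := h3
      _ = R * P ^ (2 * -n) * P := by ring
  · have e : (P ^ 2) ^ (n + 1) = P ^ (2 * n) * P ^ 2 := by
      rw [← zpow_natCast P 2, ← zpow_mul, show ((2 : ℕ) : ℤ) * (n + 1) = 2 * n + 2 by push_cast; ring,
        zpow_add₀ hP0.ne']; rfl
    have hn2' : R * P < P ^ (2 * n) * P ^ 2 := by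
      rw [e] at hn2
      exact hn2
    have h1 : P ^ (2 * n) * P ^ (2 * -n) = 1 := by
      rw [← zpow_add₀ hP0.ne']; simp
    have h2 : (0 : ℝ) < P ^ (2 * -n) := by positivity
    have h3 := mul_le_mul_of_nonneg_right hn2'.le h2.le
    have h4 : R * P * P ^ (2 * -n) ≤ P ^ 2 := by
      calc R * P * P ^ (2 * -n) ≤ P ^ (2 * n) * P ^ 2 * P ^ (2 * -n) := h3
        _ = P ^ 2 := by rw [mul_right_comm, h1, one_mul]
    have h5 : (R * P ^ (2 * -n)) * P ≤ P * P := by nlinarith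
    exact le_of_mul_le_mul_right h5 hP0

/-- `sech^2(x - f) + sech^2(x + f)` in terms of `q = e^(2x)` and `t = cosh 2f` -/
noncomputable def G2 (q t : ℝ) : ℝ := 8 * q * (2 * q + (q ^ 2 + 1) * t) / (q ^ 2 + 1 + 2 * q * t) ^ 2

theorem st_zero {p R : ℝ} (hR : 0 < R) : st p R 0 = 2 / (1 + (R + R⁻¹) / 2) := by
  unfold st
  have : (0 : ℝ) < 1 + R := by linarith
  have h2 : (0 : ℝ) < R * 2 + (R ^ 2 + 1) := by positivity
  simp only [mul_zero, zpow_zero, one_mul]
  have e : 1 + (R + R⁻¹) / 2 = (1 + R) ^ 2 / (2 * R) := by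
    field_simp
    ring
  rw [e]
  field_simp
  ring

theorem st_pair {p R : ℝ} (hp : 0 < p) (hR : 0 < R) (k : ℤ) :
    st p R k + st p R (-k) = G2 (p ^ (2 * k)) ((R + R⁻¹) / 2) := by
  unfold st G2
  set q := p ^ (2 * k) with hq
  have hq0 : 0 < q := by positivity
  have e1 : p ^ (2 * -k) = q⁻¹ := by
    rw [hq, ← zpow_neg]; ring_nf
  rw [e1]
  have e2 : q ^ 2 + 1 + 2 * q * ((R + R⁻¹) / 2) = (1 + q * R) * (q + R) / R := by
    field_simp
    ring
  rw [e2]
  have h1 : (0 : ℝ) < 1 + q * R := by positivity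
  have h2 : (0 : ℝ) < q + R := by positivity
  have e3 : 1 + q⁻¹ * R = (q + R) / q := by
    field_simp
  rw [e3]
  field_simp
  ring

theorem st_pair_le {p R : ℝ} (hp : 0 < p) (hR : 0 < R) (k : ℤ) :
    st p R k + st p R (-k) ≤ 8 * ((R + R⁻¹) / 2) * (p ^ (2 * k))⁻¹ := by
  unfold st
  set q := p ^ (2 * k) with hq
  have hq0 : 0 < q := by positivity
  have e1 : p ^ (2 * -k) = q⁻¹ := by
    rw [hq, ← zpow_neg]; ring_nf
  rw [e1]
  have h1 : 4 * (q * R) / (1 + q * R) ^ 2 ≤ 4 * (q * R)⁻¹ := by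
    have hy : 0 < q * R := by positivity
    rw [div_le_iff₀ (by positivity)]
    have : 4 * (q * R)⁻¹ * (1 + q * R) ^ 2 = 4 * (q * R) + 8 + 4 * (q * R)⁻¹ := by
      field_simp
      ring
    rw [this]
    have : 0 < (q * R)⁻¹ := by positivity
    linarith
  have h2 : 4 * (q⁻¹ * R) / (1 + q⁻¹ * R) ^ 2 ≤ 4 * (q⁻¹ * R) := by
    have hy : 0 < q⁻¹ * R := by positivity
    rw [div_le_iff₀ (by positivity)]
    nlinarith [mul_pos hy hy, mul_pos (mul_pos hy hy) hy]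
  calc 4 * (q * R) / (1 + q * R) ^ 2 + 4 * (q⁻¹ * R) / (1 + q⁻¹ * R) ^ 2
      ≤ 4 * (q * R)⁻¹ + 4 * (q⁻¹ * R) := add_le_add h1 h2
    _ = 8 * ((R + R⁻¹) / 2) * q⁻¹ := by
        field_simp
        ring

/-- sums over `{-(K+n) .. K+n}` -/
theorem sum_sym {p R : ℝ} (hp : 1 < p) (hR : 0 < R) (K n : ℕ) :
    st p R 0 + ∑ k ∈ range (K + n), (st p R ((k : ℤ) + 1) + st p R (-((k : ℤ) + 1))) ≤
      2 / (1 + (R + R⁻¹) / 2) + ∑ k ∈ range K, G2 (p ^ (2 * (k + 1))) ((R + R⁻¹) / 2) +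
        8 * ((R + R⁻¹) / 2) * ((p ^ (2 * K))⁻¹ / (p ^ 2 - 1)) := by
  have hp0 : 0 < p := by linarith
  have hp2 : 0 < p ^ 2 - 1 := by nlinarith
  set t := (R + R⁻¹) / 2 with ht
  have ht0 : 0 < t := by positivity
  rw [sum_range_add, ← add_assoc]
  have h1 : ∑ k ∈ range K, (st p R ((k : ℤ) + 1) + st p R (-((k : ℤ) + 1)))
      = ∑ k ∈ range K, G2 (p ^ (2 * (k + 1))) t := by
    refine sum_congr rfl fun k _ => ?_
    rw [st_pair hp0 hR]
    congr 1
  rw [st_zero hR, h1]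
  have h2 : ∑ i ∈ range n, (st p R (((K + i : ℕ) : ℤ) + 1) + st p R (-(((K + i : ℕ) : ℤ) + 1)))
      ≤ 8 * t * ((p ^ (2 * K))⁻¹ / (p ^ 2 - 1)) := by
    have key : ∀ n : ℕ, ∑ i ∈ range n, (st p R (((K + i : ℕ) : ℤ) + 1)
        + st p R (-(((K + i : ℕ) : ℤ) + 1)))
        ≤ 8 * t * ((p ^ (2 * K))⁻¹ / (p ^ 2 - 1)) * (1 - (p ^ (2 * n))⁻¹) := by
      intro n
      induction n with
      | zero => simp
      | succ n ih =>
        rw [sum_range_succ]
        have h3 := st_pair_le hp0 hR (((K + n : ℕ) : ℤ) + 1)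
        have e : p ^ (2 * (((K + n : ℕ) : ℤ) + 1)) = p ^ (2 * K) * p ^ (2 * n) * p ^ 2 := by
          rw [← zpow_natCast p (2 * K), ← zpow_natCast p (2 * n), ← zpow_natCast p 2,
            ← zpow_add₀ hp0.ne', ← zpow_add₀ hp0.ne']
          congr 1
          push_cast
          ring
        rw [e, ← ht] at h3
        have e2 : 8 * t * ((p ^ (2 * K))⁻¹ / (p ^ 2 - 1)) * (1 - (p ^ (2 * (n + 1)))⁻¹)
            = 8 * t * ((p ^ (2 * K))⁻¹ / (p ^ 2 - 1)) * (1 - (p ^ (2 * n))⁻¹)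
              + 8 * t * (p ^ (2 * K) * p ^ (2 * n) * p ^ 2)⁻¹ := by
          rw [show 2 * (n + 1) = 2 * n + 2 by ring, pow_add p (2 * n) 2]
          field_simp
          ring
        rw [e2]
        exact add_le_add ih h3
    refine (key n).trans ?_
    have h4 : 0 < (p ^ (2 * n))⁻¹ := by positivity
    have h5 : 0 ≤ 8 * t * ((p ^ (2 * K))⁻¹ / (p ^ 2 - 1)) := by positivity
    nlinarith
  exact add_le_add_right h2 _

/-- the general bound -/
theorem sum_st_le_gen {p R : ℝ} (hp : 1 < p) (hR : 0 < R) (K : ℕ) (M : Finset ℤ) :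
    ∑ m ∈ M, st p R m ≤
      2 / (1 + (R + R⁻¹) / 2) + ∑ k ∈ range K, G2 (p ^ (2 * (k + 1))) ((R + R⁻¹) / 2) +
        8 * ((R + R⁻¹) / 2) * ((p ^ (2 * K))⁻¹ / (p ^ 2 - 1)) := by
  have hp0 : 0 < p := by linarith
  refine le_trans ?_ (sum_sym hp hR K (M.sup Int.natAbs))
  set n := K + M.sup Int.natAbs with hn
  have hM : ∀ m ∈ M, m.natAbs ≤ n := fun m hm =>
    (le_sup (f := Int.natAbs) hm).trans (by omega)
  have e : ∀ n : ℕ, st p R 0 + ∑ k ∈ range n, (st p R ((k : ℤ) + 1) + st p R (-((k : ℤ) + 1)))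
      = ∑ m ∈ Icc (-(n : ℤ)) n, st p R m := by
    intro n
    induction n with
    | zero => simp
    | succ n ih =>
      rw [sum_range_succ, ← add_assoc, ih]
      have : Icc (-((n + 1 : ℕ) : ℤ)) ((n + 1 : ℕ) : ℤ) =
          insert (-((n : ℤ) + 1)) (insert ((n : ℤ) + 1) (Icc (-(n : ℤ)) n)) := by
        ext x
        simp only [mem_Icc, mem_insert]
        push_cast
        omega
      rw [this, sum_insert, sum_insert]
      · ring
      · simp
      · simp only [mem_insert, mem_Icc]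
        omega
  rw [e n]
  refine sum_le_sum_of_subset_of_nonneg (fun m hm => ?_) fun m _ _ => st_nonneg hp0 hR m
  rw [mem_Icc]
  have := hM m hm
  omega

/-- the bound for all shifts from a one variable inequality -/
theorem sum_st_le_of {p C : ℝ} (hp : 1 < p) (K : ℕ)
    (h : ∀ t : ℝ, 1 ≤ t → t ≤ (p + p⁻¹) / 2 →
      2 / (1 + t) + ∑ k ∈ range K, G2 (p ^ (2 * (k + 1))) t +
        8 * t * ((p ^ (2 * K))⁻¹ / (p ^ 2 - 1)) ≤ C)
    {R : ℝ} (hR : 0 < R) (M : Finset ℤ) : ∑ m ∈ M, st p R m ≤ C := by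
  have hp0 : 0 < p := by linarith
  obtain ⟨j, hj1, hj2⟩ := exists_shift hp hR
  set R' := R * p ^ (2 * j) with hR'
  have hR'0 : 0 < R' := by positivity
  have e : ∑ m ∈ M, st p R m = ∑ m ∈ M.image (fun m => m - j), st p R' m := by
    rw [sum_image (fun a _ b _ hab => by simpa using hab)]
    exact sum_congr rfl fun m _ => st_shift hp0 m j
  rw [e]
  refine (sum_st_le_gen hp hR'0 K _).trans (h _ ?_ ?_)
  · have : 2 * 1 ≤ R' + R'⁻¹ := by
      have h0 : R' + R'⁻¹ - 2 = (R' - 1) ^ 2 / R' := by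
        field_simp
        ring
      have : 0 ≤ (R' - 1) ^ 2 / R' := by positivity
      linarith
    linarith
  · have h1 : R' + R'⁻¹ ≤ p + p⁻¹ := by
      have h0 : p + p⁻¹ - (R' + R'⁻¹) = (p - R') * (p * R' - 1) / (p * R') := by
        field_simp
        ring
      have h2 : 0 ≤ (p - R') * (p * R' - 1) / (p * R') := by
        have : 1 ≤ p * R' := by
          have := mul_le_mul_of_nonneg_left hj1 hp0.le
          rwa [mul_inv_cancel₀ hp0.ne'] at this
        apply div_nonneg _ (by positivity)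
        exact mul_nonneg (by linarith) (by linarith)
      linarith
    linarith

theorem cosh_eq_st {p : ℝ} (hp : 0 < p) (f : ℝ) (m : ℤ) :
    ((cosh (m * log p - f)) ^ 2)⁻¹ = st p (exp (-2 * f)) m := by
  unfold st
  have e1 : p ^ (2 * m) = exp (2 * (m * log p)) := by
    rw [← rpow_intCast, rpow_def_of_pos hp]
    congr 1
    push_cast
    ring
  rw [e1, ← exp_add, cosh_eq]
  set x := (m : ℝ) * log p - f with hx
  have e2 : exp (2 * (m * log p) + -2 * f) = exp x * exp x := by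
    rw [← exp_add]; congr 1; rw [hx]; ring
  have e3 : exp (-x) = (exp x)⁻¹ := exp_neg x
  rw [e2, e3]
  have := exp_pos x
  field_simp
  ring

/-- real base at least 7 -/
theorem sum_st_le_seven {p R : ℝ} (hp : 7 ≤ p) (hR : 0 < R) (M : Finset ℤ) :
    ∑ m ∈ M, st p R m ≤ 1 + 8 / (p ^ 2 - 1) := by
  refine sum_st_le_of (by linarith) 0 ?_ hR M
  intro t ht1 ht2
  have hp0 : 0 < p := by linarith
  have hp2 : 0 < p ^ 2 - 1 := by nlinarith
  simp only [range_zero, sum_empty, add_zero, mul_zero, pow_zero, inv_one]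
  have h1 : 2 / (1 + t) ≤ 1 - 8 * (t - 1) / (p ^ 2 - 1) := by
    rw [div_le_iff₀ (by linarith)]
    have h2 : (1 + t) * (8 * (t - 1) / (p ^ 2 - 1)) ≤ t - 1 := by
      rw [← mul_div_assoc, div_le_iff₀ hp2]
      have h3 : 8 * (1 + t) ≤ p ^ 2 - 1 := by
        have h4 : 1 + t ≤ 1 + (p + p⁻¹) / 2 := by linarith
        have h5 : p⁻¹ ≤ 1 / 7 := by
          rw [inv_le_comm₀ hp0 (by norm_num)]
          norm_num
          exact hp
        nlinarith
      nlinarith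
    nlinarith
  have e : 8 * t * (1 / (p ^ 2 - 1)) = 8 * (t - 1) / (p ^ 2 - 1) + 8 / (p ^ 2 - 1) := by
    field_simp
    ring
  rw [e]
  linarith

end Pool.Agent.Work.DC28
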