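import Mathlib
import Pool.Agent.Work.MP_dc37f8_h28.SechAP

/-!
MP_dc37f8_co, lemma 9: the constants `C_3 <= 1.83`, `C_5 <= 1.31`, `C_2 <= 2.9`, `C_4 <= 1.48`.
-/

namespace Pool.Agent.Work.DC28

open Finset Real

theorem aux_three {t : ℝ} (h1 : 1 ≤ t) (h2 : t ≤ 5 / 3) :
    2 / (1 + t) + (G2 9 t + G2 81 t) + 8 * t * (1 / 648) ≤ 183 / 100 := by
  obtain ⟨u, rfl⟩ : ∃ u, t = 1 + u := ⟨t - 1, by ring⟩
  have hu : 0 ≤ u := by linarith
  have hu2 : 0 ≤ 2 / 3 - u := by linarith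
  have hD1 : 0 < 2 + u := by linarith
  have hD2 : 0 < 100 + 18 * u := by linarith
  have hD3 : 0 < 6724 + 162 * u := by linarith
  have e : 183 / 100 - (2 / (1 + (1 + u)) + (G2 9 (1 + u) + G2 81 (1 + u)) + 8 * (1 + u) * (1 / 648))
      = (2349500080000 + 124906142155200 * u - 76643895874624 * u ^ 2 + 14157732471264 * u ^ 3
        - 738485385768 * u ^ 4 + 10864044972 * u ^ 5 - 212576400 * u ^ 6) /
        ((2 + u) * (100 + 18 * u) ^ 2 * (6724 + 162 * u) ^ 2 * 2025) := by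
    unfold G2
    have e1 : (1 + (1 + u)) = 2 + u := by ring
    have e2 : ((9 : ℝ) ^ 2 + 1 + 2 * 9 * (1 + u)) = 100 + 18 * u := by ring
    have e3 : ((81 : ℝ) ^ 2 + 1 + 2 * 81 * (1 + u)) = 6724 + 162 * u := by ring
    rw [e1, e2, e3]
    field_simp
    ring
  have hN : 0 ≤ 2349500080000 + 124906142155200 * u - 76643895874624 * u ^ 2
      + 14157732471264 * u ^ 3 - 738485385768 * u ^ 4 + 10864044972 * u ^ 5
      - 212576400 * u ^ 6 := by
    have a1 := mul_nonneg hu hu2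
    have a3 := mul_nonneg (pow_nonneg hu 3) hu2
    have a5 := mul_nonneg (pow_nonneg hu 5) hu2
    have b3 := pow_nonneg hu 3
    have b5 := pow_nonneg hu 5
    nlinarith
  rw [← sub_nonneg, e]
  positivity

theorem sum_st_three {R : ℝ} (hR : 0 < R) (M : Finset ℤ) : ∑ m ∈ M, st 3 R m ≤ 183 / 100 := by
  refine sum_st_le_of (by norm_num) 2 ?_ hR M
  intro t ht1 ht2
  refine le_trans (le_of_eq ?_) (aux_three ht1 (by norm_num at ht2; linarith))
  simp only [sum_range_succ, range_zero, sum_empty]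
  norm_num

theorem aux_five {t : ℝ} (h1 : 1 ≤ t) (h2 : t ≤ 13 / 5) :
    2 / (1 + t) + G2 25 t + 8 * t * (1 / 600) ≤ 131 / 100 := by
  obtain ⟨u, rfl⟩ : ∃ u, t = 1 + u := ⟨t - 1, by ring⟩
  have hu : 0 ≤ u := by linarith
  have hu2 : 0 ≤ 8 / 5 - u := by linarith
  have hD1 : 0 < 2 + u := by linarith
  have hD2 : 0 < 676 + 50 * u := by linarith
  have e : 131 / 100 - (2 / (1 + (1 + u)) + G2 25 (1 + u) + 8 * (1 + u) * (1 / 600))
      = (55432 + 17615164 * u - 3296826 * u ^ 2 + 170525 * u ^ 3 - 2500 * u ^ 4) /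
        ((2 + u) * (676 + 50 * u) ^ 2 * 75) := by
    unfold G2
    have e1 : (1 + (1 + u)) = 2 + u := by ring
    have e2 : ((25 : ℝ) ^ 2 + 1 + 2 * 25 * (1 + u)) = 676 + 50 * u := by ring
    rw [e1, e2]
    field_simp
    ring
  have hN : 0 ≤ 55432 + 17615164 * u - 3296826 * u ^ 2 + 170525 * u ^ 3 - 2500 * u ^ 4 := by
    have a1 := mul_nonneg hu hu2
    have a3 := mul_nonneg (pow_nonneg hu 3) hu2
    have b3 := pow_nonneg hu 3
    nlinarith
  rw [← sub_nonneg, e]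
  positivity

theorem sum_st_five {R : ℝ} (hR : 0 < R) (M : Finset ℤ) : ∑ m ∈ M, st 5 R m ≤ 131 / 100 := by
  refine sum_st_le_of (by norm_num) 1 ?_ hR M
  intro t ht1 ht2
  refine le_trans (le_of_eq ?_) (aux_five ht1 (by norm_num at ht2; linarith))
  simp only [sum_range_succ, range_zero, sum_empty]
  norm_num

theorem aux_four {t : ℝ} (h1 : 1 ≤ t) (h2 : t ≤ 17 / 8) :
    2 / (1 + t) + G2 16 t + 8 * t * (1 / 240) ≤ 148 / 100 := by
  obtain ⟨u, rfl⟩ : ∃ u, t = 1 + u := ⟨t - 1, by ring⟩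
  have hu : 0 ≤ u := by linarith
  have hu2 : 0 ≤ 9 / 8 - u := by linarith
  have hD1 : 0 < 2 + u := by linarith
  have hD2 : 0 < 289 + 32 * u := by linarith
  have e : 148 / 100 - (2 / (1 + (1 + u)) + G2 16 (1 + u) + 8 * (1 + u) * (1 / 240))
      = (94214 + 4349711 * u - 1386117 * u ^ 2 + 119488 * u ^ 3 - 5120 * u ^ 4) /
        ((2 + u) * (289 + 32 * u) ^ 2 * 150) := by
    unfold G2
    have e1 : (1 + (1 + u)) = 2 + u := by ring
    have e2 : ((16 : ℝ) ^ 2 + 1 + 2 * 16 * (1 + u)) = 289 + 32 * u := by ring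
    rw [e1, e2]
    field_simp
    ring
  have hN : 0 ≤ 94214 + 4349711 * u - 1386117 * u ^ 2 + 119488 * u ^ 3 - 5120 * u ^ 4 := by
    have a1 := mul_nonneg hu hu2
    have a3 := mul_nonneg (pow_nonneg hu 3) hu2
    have b3 := pow_nonneg hu 3
    nlinarith
  rw [← sub_nonneg, e]
  positivity

theorem sum_st_four {R : ℝ} (hR : 0 < R) (M : Finset ℤ) : ∑ m ∈ M, st 4 R m ≤ 148 / 100 := by
  refine sum_st_le_of (by norm_num) 1 ?_ hR M
  intro t ht1 ht2
  refine le_trans (le_of_eq ?_) (aux_four ht1 (by norm_num at ht2; linarith))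
  simp only [sum_range_succ, range_zero, sum_empty]
  norm_num

theorem aux_two {t : ℝ} (h1 : 1 ≤ t) (h2 : t ≤ 5 / 4) :
    2 / (1 + t) + (G2 4 t + G2 16 t + G2 64 t) + 8 * t * (1 / 192) ≤ 29 / 10 := by
  obtain ⟨u, rfl⟩ : ∃ u, t = 1 + u := ⟨t - 1, by ring⟩
  have hu : 0 ≤ u := by linarith
  have hu2 : 0 ≤ 1 / 4 - u := by linarith
  have hD1 : 0 < 2 + u := by linarith
  have hD2 : 0 < 25 + 8 * u := by linarith
  have hD3 : 0 < 289 + 32 * u := by linarith
  have hD4 : 0 < 4225 + 128 * u := by linarith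
  have e : 29 / 10 - (2 / (1 + (1 + u)) + (G2 4 (1 + u) + G2 16 (1 + u) + G2 64 (1 + u))
        + 8 * (1 + u) * (1 / 192))
      = (3185310811718750 + 4794007990228125 * u + 942509858846875 * u ^ 2
        + 1067138257110320 * u ^ 3 - 248870897342784 * u ^ 4 + 2418320748544 * u ^ 5
        - 4517431410688 * u ^ 6 - 127389401088 * u ^ 7 - 5368709120 * u ^ 8) /
        ((2 + u) * (25 + 8 * u) ^ 2 * (289 + 32 * u) ^ 2 * (4225 + 128 * u) ^ 2 * 120) := by
    unfold G2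
    have e1 : (1 + (1 + u)) = 2 + u := by ring
    have e2 : ((4 : ℝ) ^ 2 + 1 + 2 * 4 * (1 + u)) = 25 + 8 * u := by ring
    have e3 : ((16 : ℝ) ^ 2 + 1 + 2 * 16 * (1 + u)) = 289 + 32 * u := by ring
    have e4 : ((64 : ℝ) ^ 2 + 1 + 2 * 64 * (1 + u)) = 4225 + 128 * u := by ring
    rw [e1, e2, e3, e4]
    field_simp
    ring
  have hN : 0 ≤ 3185310811718750 + 4794007990228125 * u + 942509858846875 * u ^ 2
        + 1067138257110320 * u ^ 3 - 248870897342784 * u ^ 4 + 2418320748544 * u ^ 5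
        - 4517431410688 * u ^ 6 - 127389401088 * u ^ 7 - 5368709120 * u ^ 8 := by
    have hu1 : u ≤ 1 := by linarith
    have c4 : u ^ 4 ≤ 1 := pow_le_one₀ hu hu1
    have c6 : u ^ 6 ≤ 1 := pow_le_one₀ hu hu1
    have c7 : u ^ 7 ≤ 1 := pow_le_one₀ hu hu1
    have c8 : u ^ 8 ≤ 1 := pow_le_one₀ hu hu1
    have b2 := pow_nonneg hu 2
    have b3 := pow_nonneg hu 3
    have b5 := pow_nonneg hu 5
    linarith
  rw [← sub_nonneg, e]
  positivity

theorem sum_st_two {R : ℝ} (hR : 0 < R) (M : Finset ℤ) : ∑ m ∈ M, st 2 R m ≤ 29 / 10 := by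
  refine sum_st_le_of (by norm_num) 3 ?_ hR M
  intro t ht1 ht2
  refine le_trans (le_of_eq ?_) (aux_two ht1 (by norm_num at ht2; linarith))
  simp only [sum_range_succ, range_zero, sum_empty]
  norm_num

end Pool.Agent.Work.DC28
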