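import Mathlib
import Pool.Agent.Work.MP_dc37f8_h28.SechNum

/-!
MP_dc37f8_co, lemma 9: the blocks (B), (C), (D) of helper68's plan.
-/

namespace Pool.Agent.Work.DC28

open Finset Real

/-- `BoundAll L C`: `sum_m sech^2(m L - f) <= C` for all shifts and all finite sets. -/
def BoundAll (L C : ℝ) : Prop :=
  ∀ (f : ℝ) (M : Finset ℤ), ∑ m ∈ M, ((cosh (m * L - f)) ^ 2)⁻¹ ≤ C

theorem boundAll_of {p C : ℝ} (hp : 0 < p)
    (h : ∀ {R : ℝ}, 0 < R → ∀ M : Finset ℤ, ∑ m ∈ M, st p R m ≤ C) : BoundAll (log p) C := by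
  intro f M
  rw [sum_congr rfl fun m _ => cosh_eq_st hp f m]
  exact h (exp_pos _) M

/-! ### (B) one prime -/

theorem one_prime (p : ℕ) (hp : 7 ≤ p) (f : ℝ) (M : Finset ℤ) :
    ∑ m ∈ M, ((cosh (m * log p - f)) ^ 2)⁻¹ ≤ 1 + 8 / ((p : ℝ) ^ 2 - 1) := by
  have hp' : (7 : ℝ) ≤ p := by exact_mod_cast hp
  exact boundAll_of (by linarith) (fun hR M => sum_st_le_seven hp' hR M) f M

theorem one_prime3 (f : ℝ) (M : Finset ℤ) :
    ∑ m ∈ M, ((cosh (m * log (3 : ℕ) - f)) ^ 2)⁻¹ ≤ 183 / 100 :=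
  boundAll_of (by norm_num) (fun hR M => by exact_mod_cast sum_st_three hR M) f M

theorem one_prime5 (f : ℝ) (M : Finset ℤ) :
    ∑ m ∈ M, ((cosh (m * log (5 : ℕ) - f)) ^ 2)⁻¹ ≤ 131 / 100 :=
  boundAll_of (by norm_num) (fun hR M => by exact_mod_cast sum_st_five hR M) f M

theorem one_prime2 (f : ℝ) (M : Finset ℤ) :
    ∑ m ∈ M, ((cosh (m * log (2 : ℕ) - f)) ^ 2)⁻¹ ≤ 29 / 10 :=
  boundAll_of (by norm_num) (fun hR M => by exact_mod_cast sum_st_two hR M) f M

/-- `M` has gaps at least `k` -/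
def Gap (k : ℤ) (M : Finset ℤ) : Prop := ∀ m ∈ M, ∀ m' ∈ M, m ≠ m' → k ≤ |m - m'|

theorem cosh_inv_anti {x y : ℝ} (h : |x| ≤ |y|) : ((cosh y) ^ 2)⁻¹ ≤ ((cosh x) ^ 2)⁻¹ := by
  have h1 : cosh x ≤ cosh y := cosh_le_cosh.2 h
  have h2 : 0 < cosh x := cosh_pos x
  gcongr

/-- sums over sets with gaps `k` are bounded by the constant of the progression `k L` -/
theorem gap_bound {L C : ℝ} (hL : 0 < L) {k : ℤ} (hk : 1 ≤ k) (hC : BoundAll (k * L) C)
    (f : ℝ) (M : Finset ℤ) (hM : Gap k M) : ∑ m ∈ M, ((cosh (m * L - f)) ^ 2)⁻¹ ≤ C := by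
  classical
  have hkL : 0 < k * L := by
    have : (1 : ℝ) ≤ k := by exact_mod_cast hk
    nlinarith
  set Mp := M.filter (fun m : ℤ => 0 ≤ m * L - f) with hMp
  set Mm := M.filter (fun m : ℤ => ¬ 0 ≤ m * L - f) with hMm
  -- the base point x'
  obtain ⟨x, hx0, hxl, hxp, hxm⟩ : ∃ x : ℝ, 0 ≤ x ∧ x ≤ k * L ∧ (∀ m ∈ Mp, x ≤ m * L - f) ∧
      (∀ m ∈ Mm, k * L - x ≤ -(m * L - f)) := by
    by_cases hne : Mp.Nonempty
    · obtain ⟨mp, hmp, hmin⟩ := exists_min_image Mp (fun m : ℤ => (m : ℝ)) hne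
      have hmp0 : 0 ≤ mp * L - f := (mem_filter.1 hmp).2
      refine ⟨min (mp * L - f) (k * L), le_min hmp0 hkL.le, min_le_right _ _, fun m hm => ?_,
        fun m hm => ?_⟩
      · refine (min_le_left _ _).trans ?_
        have := hmin m hm
        nlinarith
      · have hm0 : m * L - f < 0 := by simpa using (mem_filter.1 hm).2
        rcases le_total (mp * L - f) (k * L) with h | h
        · rw [min_eq_left h]
          have hlt : m < mp := by
            by_contra hcon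
            push Not at hcon
            have : (mp : ℝ) ≤ m := by exact_mod_cast hcon
            nlinarith
          have hg := hM mp (mem_filter.1 hmp).1 m (mem_filter.1 hm).1 (by omega)
          rw [abs_of_pos (by omega)] at hg
          have : (k : ℝ) ≤ mp - m := by exact_mod_cast hg
          nlinarith
        · rw [min_eq_right h]
          linarith
    · refine ⟨k * L, hkL.le, le_refl _, fun m hm => absurd ⟨m, hm⟩ hne, fun m hm => ?_⟩
      have hm0 : m * L - f < 0 := by simpa using (mem_filter.1 hm).2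
      linarith
  -- extreme points
  obtain ⟨a, ha⟩ : ∃ a : ℤ, (∀ m ∈ Mp, a ≤ m) ∧ (Mp.Nonempty → a ∈ Mp) := by
    by_cases hne : Mp.Nonempty
    · obtain ⟨mp, hmp, hmin⟩ := exists_min_image Mp id hne
      exact ⟨mp, hmin, fun _ => hmp⟩
    · exact ⟨0, fun m hm => absurd ⟨m, hm⟩ hne, fun h => absurd h hne⟩
  obtain ⟨b, hb⟩ : ∃ b : ℤ, (∀ m ∈ Mm, m ≤ b) ∧ (Mm.Nonempty → b ∈ Mm) := by
    by_cases hne : Mm.Nonempty
    · obtain ⟨mp, hmp, hmin⟩ := exists_max_image Mm id hne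
      exact ⟨mp, hmin, fun _ => hmp⟩
    · exact ⟨0, fun m hm => absurd ⟨m, hm⟩ hne, fun h => absurd h hne⟩
  have hk0 : 0 < k := by omega
  let φ : ℤ → ℤ := fun m => if 0 ≤ m * L - f then (m - a) / k else -1 - (b - m) / k
  have hφp : ∀ m ∈ Mp, φ m = (m - a) / k := fun m hm => if_pos (mem_filter.1 hm).2
  have hφm : ∀ m ∈ Mm, φ m = -1 - (b - m) / k := fun m hm => if_neg (mem_filter.1 hm).2
  have hcase : ∀ m ∈ M, m ∈ Mp ∨ m ∈ Mm := fun m hm => by
    by_cases h : 0 ≤ m * L - f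
    · exact Or.inl (mem_filter.2 ⟨hm, h⟩)
    · exact Or.inr (mem_filter.2 ⟨hm, h⟩)
  have hgapdiv : ∀ m ∈ M, ∀ m' ∈ M, ∀ c : ℤ, m < m' → (m - c) / k < (m' - c) / k := by
    intro m hm m' hm' c hlt
    have hg := hM m' hm' m hm (by omega)
    rw [abs_of_pos (by omega)] at hg
    have h1 : (m - c) / k + 1 = (m - c + k) / k := by
      rw [Int.add_ediv_of_dvd_right (dvd_refl k), Int.ediv_self hk0.ne']
    have h2 : (m - c + k) / k ≤ (m' - c) / k := Int.ediv_le_ediv hk0 (by omega)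
    omega
  have hgapdiv' : ∀ m ∈ M, ∀ m' ∈ M, ∀ c : ℤ, m < m' → (c - m') / k < (c - m) / k := by
    intro m hm m' hm' c hlt
    have hg := hM m' hm' m hm (by omega)
    rw [abs_of_pos (by omega)] at hg
    have h1 : (c - m') / k + 1 = (c - m' + k) / k := by
      rw [Int.add_ediv_of_dvd_right (dvd_refl k), Int.ediv_self hk0.ne']
    have h2 : (c - m' + k) / k ≤ (c - m) / k := Int.ediv_le_ediv hk0 (by omega)
    omega
  have hφ0 : ∀ m ∈ Mp, 0 ≤ φ m := fun m hm => by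
    rw [hφp m hm]
    exact Int.ediv_nonneg (by have := ha.1 m hm; omega) hk0.le
  have hφ1 : ∀ m ∈ Mm, φ m ≤ -1 := fun m hm => by
    rw [hφm m hm]
    have := Int.ediv_nonneg (a := b - m) (b := k) (by have := hb.1 m hm; omega) hk0.le
    omega
  have hinj : Set.InjOn φ M := by
    intro m hm m' hm' h
    rcases hcase m hm with h1 | h1 <;> rcases hcase m' hm' with h2 | h2
    · rw [hφp m h1, hφp m' h2] at h
      rcases lt_trichotomy m m' with hlt | heq | hlt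
      · have := hgapdiv m hm m' hm' a hlt; omega
      · exact heq
      · have := hgapdiv m' hm' m hm a hlt; omega
    · have := hφ0 m h1; have := hφ1 m' h2; omega
    · have := hφ1 m h1; have := hφ0 m' h2; omega
    · rw [hφm m h1, hφm m' h2] at h
      rcases lt_trichotomy m m' with hlt | heq | hlt
      · have := hgapdiv' m hm m' hm' b hlt; omega
      · exact heq
      · have := hgapdiv' m' hm' m hm b hlt; omega
  have hterm : ∀ m ∈ M, ((cosh (m * L - f)) ^ 2)⁻¹ ≤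
      ((cosh ((φ m : ℤ) * (k * L) - (-x))) ^ 2)⁻¹ := by
    intro m hm
    apply cosh_inv_anti
    rcases hcase m hm with h1 | h1
    · have h3 : 0 ≤ m * L - f := (mem_filter.1 h1).2
      have h4 : (0 : ℝ) ≤ φ m := by exact_mod_cast hφ0 m h1
      rw [abs_of_nonneg h3, abs_of_nonneg (by nlinarith)]
      have h5 : x ≤ a * L - f := hxp a (ha.2 ⟨m, h1⟩)
      have h6 : (φ m : ℤ) * k ≤ m - a := by
        rw [hφp m h1]; exact Int.ediv_mul_le _ hk0.ne'
      have h7 : (φ m : ℝ) * k ≤ m - a := by exact_mod_cast h6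
      nlinarith
    · have h3 : ¬ 0 ≤ m * L - f := (mem_filter.1 h1).2
      push Not at h3
      have h4 : (φ m : ℝ) ≤ -1 := by exact_mod_cast hφ1 m h1
      rw [abs_of_neg h3, abs_of_nonpos (by nlinarith)]
      have h5 : k * L - x ≤ -(b * L - f) := hxm b (hb.2 ⟨m, h1⟩)
      have h6 : ((b - m) / k) * k ≤ b - m := Int.ediv_mul_le _ hk0.ne'
      have h7 : (((b - m) / k : ℤ) : ℝ) * k ≤ b - m := by exact_mod_cast h6
      have h8 : (φ m : ℝ) = -1 - (((b - m) / k : ℤ) : ℝ) := by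
        rw [hφm m h1]; push_cast; ring
      rw [h8]
      nlinarith
  calc ∑ m ∈ M, ((cosh (m * L - f)) ^ 2)⁻¹
      ≤ ∑ m ∈ M, ((cosh ((φ m : ℤ) * (k * L) - (-x))) ^ 2)⁻¹ := sum_le_sum hterm
    _ = ∑ n ∈ M.image φ, ((cosh (n * (k * L) - (-x))) ^ 2)⁻¹ := by
        rw [sum_image hinj]
    _ ≤ C := hC (-x) _

theorem gap_prime2_two (f : ℝ) (M : Finset ℤ) (hM : Gap 2 M) :
    ∑ m ∈ M, ((cosh (m * log (2 : ℕ) - f)) ^ 2)⁻¹ ≤ 148 / 100 := by
  refine gap_bound (log_pos (by norm_num)) (by norm_num) ?_ f M hM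
  have h : BoundAll (log 4) (148 / 100) := boundAll_of (by norm_num) (fun hR M => sum_st_four hR M)
  have e : ((2 : ℤ) : ℝ) * log ((2 : ℕ) : ℝ) = log 4 := by
    rw [show (4 : ℝ) = 2 ^ 2 by norm_num, log_pow]
    push_cast
    ring
  rw [e]
  exact h

theorem gap_prime2 (k : ℕ) (hk : 3 ≤ k) (f : ℝ) (M : Finset ℤ) (hM : Gap k M) :
    ∑ m ∈ M, ((cosh (m * log (2 : ℕ) - f)) ^ 2)⁻¹ ≤ 1 + 8 / (((2 : ℝ) ^ k) ^ 2 - 1) := by
  refine gap_bound (log_pos (by norm_num)) (by exact_mod_cast (by omega : 1 ≤ k)) ?_ f M hM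
  have h8 : (8 : ℝ) ≤ 2 ^ k := by
    calc (8 : ℝ) = 2 ^ 3 := by norm_num
      _ ≤ 2 ^ k := pow_le_pow_right₀ (by norm_num) hk
  have h : BoundAll (log ((2 : ℝ) ^ k)) (1 + 8 / (((2 : ℝ) ^ k) ^ 2 - 1)) :=
    boundAll_of (by positivity) (fun hR M => sum_st_le_seven (by linarith) hR M)
  have e : ((k : ℤ) : ℝ) * log ((2 : ℕ) : ℝ) = log ((2 : ℝ) ^ k) := by
    rw [log_pow]
    push_cast
    ring
  rw [e]
  exact h

/-! ### (C) many primes -/

theorem many_primes_gen {ι : Type*} (S : Finset ℕ) (C : ℕ → ℝ)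
    (hC : ∀ p ∈ S, BoundAll (log p) (C p)) (f : ℕ → ℝ) :
    ∀ (J : Finset ι) (e : ι → ℕ → ℤ) (b : ι → ℝ) (B : ℝ), 0 ≤ B → (∀ r ∈ J, 0 ≤ b r) →
      (∀ J' ⊆ J, (∀ r ∈ J', ∀ r' ∈ J', ∀ p ∈ S, e r p = e r' p) → ∑ r ∈ J', b r ≤ B) →
      ∑ r ∈ J, (∏ p ∈ S, (cosh (e r p * log p - f p)) ^ 2)⁻¹ * b r ≤ (∏ p ∈ S, C p) * B := by
  classical
  induction S using Finset.induction_on with
  | empty =>
    intro J e b B hB hb h
    simpa using h J (subset_refl J) (by simp)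
  | insert q S hq ih =>
    intro J e b B hB hb h
    have ih' := ih (fun p hp => hC p (mem_insert_of_mem hp))
    have hC0 : ∀ p ∈ insert q S, 0 ≤ C p := fun p hp => by
      have := hC p hp 0 ∅
      simpa using this
    have hS0 : 0 ≤ ∏ p ∈ S, C p := prod_nonneg fun p hp => hC0 p (mem_insert_of_mem hp)
    -- split J according to the exponent at q
    have e1 : ∀ r ∈ J, (∏ p ∈ insert q S, (cosh (e r p * log p - f p)) ^ 2)⁻¹ * b r
        = ((cosh (e r q * log q - f q)) ^ 2)⁻¹ *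
          ((∏ p ∈ S, (cosh (e r p * log p - f p)) ^ 2)⁻¹ * b r) := by
      intro r _
      rw [prod_insert hq, mul_inv, mul_assoc]
    rw [sum_congr rfl e1]
    rw [← sum_fiberwise_of_maps_to (s := J) (t := J.image fun r => e r q) (g := fun r => e r q)
      (fun r hr => mem_image_of_mem _ hr)]
    have h2 : ∀ m ∈ J.image (fun r => e r q),
        ∑ r ∈ J.filter (fun r => e r q = m), ((cosh (e r q * log q - f q)) ^ 2)⁻¹ *
          ((∏ p ∈ S, (cosh (e r p * log p - f p)) ^ 2)⁻¹ * b r)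
        ≤ ((cosh (m * log q - f q)) ^ 2)⁻¹ * ((∏ p ∈ S, C p) * B) := by
      intro m _
      have e3 : ∀ r ∈ J.filter (fun r => e r q = m), ((cosh (e r q * log q - f q)) ^ 2)⁻¹ *
          ((∏ p ∈ S, (cosh (e r p * log p - f p)) ^ 2)⁻¹ * b r)
          = ((cosh (m * log q - f q)) ^ 2)⁻¹ *
          ((∏ p ∈ S, (cosh (e r p * log p - f p)) ^ 2)⁻¹ * b r) := by
        intro r hr
        rw [(mem_filter.1 hr).2]
      rw [sum_congr rfl e3, ← mul_sum]
      apply mul_le_mul_of_nonneg_left _ (by positivity)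
      refine ih' (J.filter (fun r => e r q = m)) e b B hB
        (fun r hr => hb r (mem_filter.1 hr).1) ?_
      intro J' hJ' hJ''
      refine h J' (hJ'.trans (filter_subset _ _)) ?_
      intro r hr r' hr' p hp
      rcases mem_insert.1 hp with rfl | hp
      · rw [(mem_filter.1 (hJ' hr)).2, (mem_filter.1 (hJ' hr')).2]
      · exact hJ'' r hr r' hr' p hp
    refine (sum_le_sum h2).trans ?_
    rw [← sum_mul, prod_insert hq, mul_assoc (C q)]
    exact mul_le_mul_of_nonneg_right (hC q (mem_insert_self q S) (f q) _)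
      (mul_nonneg hS0 hB)

theorem many_primes {ι : Type*} (S : Finset ℕ) (J : Finset ι) (e : ι → ℕ → ℤ) (w : ℕ)
    (hw : ∀ J' ⊆ J, (∀ r ∈ J', ∀ r' ∈ J', ∀ p ∈ S, e r p = e r' p) → J'.card ≤ w)
    (C : ℕ → ℝ) (hC : ∀ p ∈ S, BoundAll (log p) (C p)) (f : ℕ → ℝ) :
    ∑ r ∈ J, (∏ p ∈ S, (cosh (e r p * log p - f p)) ^ 2)⁻¹ ≤ w * ∏ p ∈ S, C p := by
  have h := many_primes_gen S C hC f J e (fun _ => 1) w (by positivity) (by simp)
    (fun J' hJ' hJ'' => by
      rw [sum_const, nsmul_eq_mul, mul_one]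
      exact_mod_cast hw J' hJ' hJ'')
  simp only [mul_one] at h
  linarith

/-- version with gaps at the prime `2` -/
theorem many_primes_gap {ι : Type*} (S : Finset ℕ) (h2S : 2 ∉ S) (J : Finset ι)
    (e : ι → ℕ → ℤ) (w : ℕ) (k : ℤ)
    (hw : ∀ J' ⊆ J, (∀ r ∈ J', ∀ r' ∈ J', ∀ p ∈ insert 2 S, e r p = e r' p) → J'.card ≤ w)
    (hgap : ∀ r ∈ J, ∀ r' ∈ J, (∀ p ∈ S, e r p = e r' p) → e r 2 ≠ e r' 2 →
      k ≤ |e r 2 - e r' 2|)
    (C : ℕ → ℝ) (C2 : ℝ) (hC : ∀ p ∈ S, BoundAll (log p) (C p))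
    (hC2 : ∀ (f : ℝ) (M : Finset ℤ), Gap k M →
      ∑ m ∈ M, ((cosh (m * log (2 : ℕ) - f)) ^ 2)⁻¹ ≤ C2) (f : ℕ → ℝ) :
    ∑ r ∈ J, (∏ p ∈ insert 2 S, (cosh (e r p * log p - f p)) ^ 2)⁻¹ ≤
      w * (C2 * ∏ p ∈ S, C p) := by
  classical
  have hC20 : 0 ≤ C2 := by
    have := hC2 0 ∅ (by intro m hm; simp at hm)
    simpa using this
  have h := many_primes_gen S C hC f J e
    (fun r => ((cosh (e r 2 * log (2 : ℕ) - f 2)) ^ 2)⁻¹) (w * C2) (by positivity)
    (fun r _ => by positivity) (fun J' hJ' hJ'' => by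
      rw [← sum_fiberwise_of_maps_to (s := J') (t := J'.image fun r => e r 2)
        (g := fun r => e r 2) (fun r hr => mem_image_of_mem _ hr)]
      have h3 : ∀ m ∈ J'.image (fun r => e r 2),
          ∑ r ∈ J'.filter (fun r => e r 2 = m), ((cosh (e r 2 * log (2 : ℕ) - f 2)) ^ 2)⁻¹
          ≤ w * ((cosh (m * log (2 : ℕ) - f 2)) ^ 2)⁻¹ := by
        intro m _
        have e3 : ∀ r ∈ J'.filter (fun r => e r 2 = m),
            ((cosh (e r 2 * log (2 : ℕ) - f 2)) ^ 2)⁻¹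
            = ((cosh (m * log (2 : ℕ) - f 2)) ^ 2)⁻¹ := by
          intro r hr
          rw [(mem_filter.1 hr).2]
        rw [sum_congr rfl e3, sum_const, nsmul_eq_mul]
        apply mul_le_mul_of_nonneg_right _ (by positivity)
        have hcard := hw (J'.filter (fun r => e r 2 = m)) ((filter_subset _ _).trans hJ') (by
          intro r hr r' hr' p hp
          rcases mem_insert.1 hp with rfl | hp
          · rw [(mem_filter.1 hr).2, (mem_filter.1 hr').2]
          · exact hJ'' r (mem_filter.1 hr).1 r' (mem_filter.1 hr').1 p hp)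
        exact_mod_cast hcard
      refine (sum_le_sum h3).trans ?_
      rw [← mul_sum]
      apply mul_le_mul_of_nonneg_left _ (by positivity)
      apply hC2
      intro m hm m' hm' hne
      obtain ⟨r, hr, rfl⟩ := mem_image.1 hm
      obtain ⟨r', hr', rfl⟩ := mem_image.1 hm'
      exact hgap r (hJ' hr) r' (hJ' hr') (fun p hp => hJ'' r hr r' hr' p hp) hne)
  refine le_trans (le_of_eq (sum_congr rfl fun r _ => ?_)) (h.trans (le_of_eq (by ring)))
  rw [prod_insert h2S, mul_inv, mul_comm]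

end Pool.Agent.Work.DC28
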