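import Mathlib
import Pool.Agent.Work.MP_dc37f8_h28.Primes

/-!
MP_dc37f8_co, lemma 9: products of the constants over finite sets of primes.
-/

namespace Pool.Agent.Work.DC28

open Finset Real

/-- the constant of a prime `p >= 7` -/
noncomputable def cp (p : ℕ) : ℝ := 1 + 8 / ((p : ℝ) ^ 2 - 1)

theorem one_le_cp {p : ℕ} (hp : 2 ≤ p) : 1 ≤ cp p := by
  unfold cp
  have : (2 : ℝ) ≤ p := by exact_mod_cast hp
  have : (0 : ℝ) ≤ 8 / ((p : ℝ) ^ 2 - 1) := div_nonneg (by norm_num) (by nlinarith)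
  linarith

theorem prod_le_of_subset {f : ℕ → ℝ} {S T : Finset ℕ} (h : S ⊆ T) (hT : ∀ p ∈ T, 1 ≤ f p) :
    ∏ p ∈ S, f p ≤ ∏ p ∈ T, f p := by
  rw [← prod_sdiff h]
  have h1 : 1 ≤ ∏ p ∈ T \ S, f p := Finset.one_le_prod fun p hp => hT p (sdiff_subset hp)
  have h0 : 0 ≤ ∏ p ∈ S, f p := prod_nonneg fun p hp => zero_le_one.trans (hT p (h hp))
  nlinarith

/-- tail over odd numbers -/
theorem tail_odd (N : ℕ) (hN : 7 ≤ N) (S : Finset ℕ) (hS : ∀ p ∈ S, N ≤ p ∧ (p - N) % 2 = 0) :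
    ∏ p ∈ S, cp p ≤ ((N : ℝ) - 1) / (N - 5) := by
  have key : ∀ m : ℕ, (∏ k ∈ range m, cp (N + 2 * k)) * (((N + 2 * m : ℕ) : ℝ) - 1) /
      (((N + 2 * m : ℕ) : ℝ) - 5) ≤ ((N : ℝ) - 1) / (N - 5) := by
    intro m
    induction m with
    | zero => simp
    | succ m ih =>
      refine le_trans ?_ ih
      rw [prod_range_succ]
      set Q := ∏ k ∈ range m, cp (N + 2 * k) with hQ
      have hQ0 : 0 ≤ Q := prod_nonneg fun k _ => zero_le_one.trans (one_le_cp (by omega))
      have hx : (7 : ℝ) ≤ ((N + 2 * m : ℕ) : ℝ) := by exact_mod_cast (by omega : 7 ≤ N + 2 * m)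
      have e : ((N + 2 * (m + 1) : ℕ) : ℝ) = ((N + 2 * m : ℕ) : ℝ) + 2 := by push_cast; ring
      rw [e]
      unfold cp
      set x := ((N + 2 * m : ℕ) : ℝ) with hxdef
      have h1 : (1 + 8 / (x ^ 2 - 1)) * (x + 2 - 1) / (x + 2 - 5) ≤ (x - 1) / (x - 5) := by
        have a1 : 0 < x ^ 2 - 1 := by nlinarith
        have a2 : 0 < x + 2 - 5 := by linarith
        have a3 : 0 < x - 5 := by linarith
        have a4 : 1 + 8 / (x ^ 2 - 1) = (x ^ 2 + 7) / (x ^ 2 - 1) := by
          field_simp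
          ring
        rw [a4, div_mul_eq_mul_div, div_div, div_le_div_iff₀ (by positivity) a3]
        nlinarith
      calc Q * (1 + 8 / (x ^ 2 - 1)) * (x + 2 - 1) / (x + 2 - 5)
          = Q * ((1 + 8 / (x ^ 2 - 1)) * (x + 2 - 1) / (x + 2 - 5)) := by ring
        _ ≤ Q * ((x - 1) / (x - 5)) := mul_le_mul_of_nonneg_left h1 hQ0
        _ = Q * (x - 1) / (x - 5) := by ring
  obtain ⟨m, hm⟩ : ∃ m : ℕ, ∀ p ∈ S, p < N + 2 * m := ⟨S.sup id + 1, fun p hp => by
    have : p ≤ S.sup id := le_sup (f := id) hp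
    omega⟩
  have hsub : S ⊆ (range m).image (fun k => N + 2 * k) := by
    intro p hp
    obtain ⟨h1, h2⟩ := hS p hp
    have := hm p hp
    exact mem_image.2 ⟨(p - N) / 2, mem_range.2 (by omega), by omega⟩
  calc ∏ p ∈ S, cp p ≤ ∏ p ∈ (range m).image (fun k => N + 2 * k), cp p :=
        prod_le_of_subset hsub fun p hp => by
          obtain ⟨k, -, rfl⟩ := mem_image.1 hp
          exact one_le_cp (by omega)
    _ = ∏ k ∈ range m, cp (N + 2 * k) := by
        rw [prod_image]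
        intro a _ b _ h
        simpa using h
    _ ≤ (∏ k ∈ range m, cp (N + 2 * k)) * (((N + 2 * m : ℕ) : ℝ) - 1) /
          (((N + 2 * m : ℕ) : ℝ) - 5) := by
        have hQ0 : 0 ≤ ∏ k ∈ range m, cp (N + 2 * k) :=
          prod_nonneg fun k _ => zero_le_one.trans (one_le_cp (by omega))
        have hx : (7 : ℝ) ≤ ((N + 2 * m : ℕ) : ℝ) := by exact_mod_cast (by omega : 7 ≤ N + 2 * m)
        rw [mul_div_assoc]
        apply le_mul_of_one_le_right hQ0
        rw [le_div_iff₀ (by linarith)]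
        linarith
    _ ≤ _ := key m

/-- tail over numbers `= 1 mod 6` -/
theorem tail_six (N : ℕ) (hN : 7 ≤ N) (S : Finset ℕ) (hS : ∀ p ∈ S, N ≤ p ∧ (p - N) % 6 = 0) :
    ∏ p ∈ S, cp p ≤ (3 * (N : ℝ) - 9) / (3 * N - 13) := by
  have key : ∀ m : ℕ, (∏ k ∈ range m, cp (N + 6 * k)) * (3 * ((N + 6 * m : ℕ) : ℝ) - 9) /
      (3 * ((N + 6 * m : ℕ) : ℝ) - 13) ≤ (3 * (N : ℝ) - 9) / (3 * N - 13) := by
    intro m
    induction m with
    | zero => simp
    | succ m ih =>
      refine le_trans ?_ ih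
      rw [prod_range_succ]
      set Q := ∏ k ∈ range m, cp (N + 6 * k) with hQ
      have hQ0 : 0 ≤ Q := prod_nonneg fun k _ => zero_le_one.trans (one_le_cp (by omega))
      have hx : (7 : ℝ) ≤ ((N + 6 * m : ℕ) : ℝ) := by exact_mod_cast (by omega : 7 ≤ N + 6 * m)
      have e : ((N + 6 * (m + 1) : ℕ) : ℝ) = ((N + 6 * m : ℕ) : ℝ) + 6 := by push_cast; ring
      rw [e]
      unfold cp
      set x := ((N + 6 * m : ℕ) : ℝ) with hxdef
      have h1 : (1 + 8 / (x ^ 2 - 1)) * (3 * (x + 6) - 9) / (3 * (x + 6) - 13)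
          ≤ (3 * x - 9) / (3 * x - 13) := by
        have a1 : 0 < x ^ 2 - 1 := by nlinarith
        have a2 : 0 < 3 * (x + 6) - 13 := by linarith
        have a3 : 0 < 3 * x - 13 := by linarith
        have a4 : 1 + 8 / (x ^ 2 - 1) = (x ^ 2 + 7) / (x ^ 2 - 1) := by
          field_simp
          ring
        rw [a4, div_mul_eq_mul_div, div_div, div_le_div_iff₀ (by positivity) a3]
        nlinarith
      calc Q * (1 + 8 / (x ^ 2 - 1)) * (3 * (x + 6) - 9) / (3 * (x + 6) - 13)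
          = Q * ((1 + 8 / (x ^ 2 - 1)) * (3 * (x + 6) - 9) / (3 * (x + 6) - 13)) := by ring
        _ ≤ Q * ((3 * x - 9) / (3 * x - 13)) := mul_le_mul_of_nonneg_left h1 hQ0
        _ = Q * (3 * x - 9) / (3 * x - 13) := by ring
  obtain ⟨m, hm⟩ : ∃ m : ℕ, ∀ p ∈ S, p < N + 6 * m := ⟨S.sup id + 1, fun p hp => by
    have : p ≤ S.sup id := le_sup (f := id) hp
    omega⟩
  have hsub : S ⊆ (range m).image (fun k => N + 6 * k) := by
    intro p hp
    obtain ⟨h1, h2⟩ := hS p hp
    have := hm p hp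
    exact mem_image.2 ⟨(p - N) / 6, mem_range.2 (by omega), by omega⟩
  calc ∏ p ∈ S, cp p ≤ ∏ p ∈ (range m).image (fun k => N + 6 * k), cp p :=
        prod_le_of_subset hsub fun p hp => by
          obtain ⟨k, -, rfl⟩ := mem_image.1 hp
          exact one_le_cp (by omega)
    _ = ∏ k ∈ range m, cp (N + 6 * k) := by
        rw [prod_image]
        intro a _ b _ h
        simpa using h
    _ ≤ (∏ k ∈ range m, cp (N + 6 * k)) * (3 * ((N + 6 * m : ℕ) : ℝ) - 9) /
          (3 * ((N + 6 * m : ℕ) : ℝ) - 13) := by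
        have hQ0 : 0 ≤ ∏ k ∈ range m, cp (N + 6 * k) :=
          prod_nonneg fun k _ => zero_le_one.trans (one_le_cp (by omega))
        have hx : (7 : ℝ) ≤ ((N + 6 * m : ℕ) : ℝ) := by exact_mod_cast (by omega : 7 ≤ N + 6 * m)
        rw [mul_div_assoc]
        apply le_mul_of_one_le_right hQ0
        rw [le_div_iff₀ (by linarith)]
        linarith
    _ ≤ _ := key m

/-- primes at least 11: product at most 1.31 -/
theorem prod_ge_eleven (S : Finset ℕ) (hS : ∀ p ∈ S, p.Prime ∧ 11 ≤ p) :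
    ∏ p ∈ S, cp p ≤ 131 / 100 := by
  have hsplit : ∏ p ∈ S, cp p = (∏ p ∈ S.filter (· < 101), cp p) *
      ∏ p ∈ S.filter (fun p => ¬ p < 101), cp p := (prod_filter_mul_prod_filter_not S _ _).symm
  have h1 : ∏ p ∈ S.filter (· < 101), cp p ≤ ∏ p ∈ ({11, 13, 17, 19, 23, 29, 31, 37, 41, 43, 47,
      53, 59, 61, 67, 71, 73, 79, 83, 89, 97} : Finset ℕ), cp p := by
    refine prod_le_of_subset (fun p hp => ?_) (fun p hp => one_le_cp ?_)
    · obtain ⟨hp1, hp2⟩ := mem_filter.1 hp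
      obtain ⟨hp3, hp4⟩ := hS p hp1
      have hp5 : ∀ q < 101, q.Prime → 11 ≤ q → q ∈ ({11, 13, 17, 19, 23, 29, 31, 37, 41, 43, 47,
          53, 59, 61, 67, 71, 73, 79, 83, 89, 97} : Finset ℕ) := by decide +kernel
      exact hp5 p hp2 hp3 hp4
    · simp only [mem_insert, mem_singleton] at hp
      omega
  have h2 : ∏ p ∈ ({11, 13, 17, 19, 23, 29, 31, 37, 41, 43, 47,
      53, 59, 61, 67, 71, 73, 79, 83, 89, 97} : Finset ℕ), cp p ≤ 12572 / 10000 := by
    simp only [cp]
    norm_num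
  have h3 : ∏ p ∈ S.filter (fun p => ¬ p < 101), cp p ≤ 25 / 24 := by
    have := tail_odd 101 (by norm_num) (S.filter (fun p => ¬ p < 101)) (fun p hp => by
      obtain ⟨hp1, hp2⟩ := mem_filter.1 hp
      obtain ⟨hp3, -⟩ := hS p hp1
      have := hp3.eq_two_or_odd
      omega)
    exact this.trans (by norm_num)
  have h0 : 0 ≤ ∏ p ∈ S.filter (fun p => ¬ p < 101), cp p :=
    prod_nonneg fun p hp => zero_le_one.trans (one_le_cp (by
      have := (mem_filter.1 hp).2
      omega))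
  rw [hsplit]
  calc _ ≤ (12572 / 10000 : ℝ) * (25 / 24) := mul_le_mul (h1.trans h2) h3 h0 (by norm_num)
    _ ≤ _ := by norm_num

/-- primes at least 7: product at most 1.53 -/
theorem prod_ge_seven (S : Finset ℕ) (hS : ∀ p ∈ S, p.Prime ∧ 7 ≤ p) :
    ∏ p ∈ S, cp p ≤ 153 / 100 := by
  have h11 : ∏ p ∈ S.filter (fun p => p ≠ 7), cp p ≤ 131 / 100 := by
    refine prod_ge_eleven _ fun p hp => ?_
    obtain ⟨hp1, hp2⟩ := mem_filter.1 hp
    obtain ⟨hp3, hp4⟩ := hS p hp1
    refine ⟨hp3, ?_⟩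
    by_contra hcon
    push Not at hcon
    interval_cases p <;> first | exact hp2 rfl | (revert hp3; decide)
  have h0 : 0 ≤ ∏ p ∈ S.filter (fun p => p ≠ 7), cp p :=
    prod_nonneg fun p hp => zero_le_one.trans (one_le_cp (by
      have := (hS p (mem_filter.1 hp).1).2
      omega))
  have h7 : cp 7 = 7 / 6 := by unfold cp; norm_num
  have hsub : S ⊆ insert 7 (S.filter (fun p => p ≠ 7)) := by
    intro p hp
    by_cases h : p = 7
    · exact mem_insert.2 (Or.inl h)
    · exact mem_insert.2 (Or.inr (mem_filter.2 ⟨hp, h⟩))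
  calc ∏ p ∈ S, cp p ≤ ∏ p ∈ insert 7 (S.filter (fun p => p ≠ 7)), cp p :=
        prod_le_of_subset hsub fun p hp => by
          rcases mem_insert.1 hp with rfl | hp
          · exact one_le_cp (by norm_num)
          · exact one_le_cp (by have := (hS p (mem_filter.1 hp).1).2; omega)
    _ = cp 7 * ∏ p ∈ S.filter (fun p => p ≠ 7), cp p := by
        rw [prod_insert (by simp)]
    _ ≤ 7 / 6 * (131 / 100) := by
        rw [h7]
        exact mul_le_mul_of_nonneg_left h11 (by norm_num)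
    _ ≤ 153 / 100 := by norm_num

/-- primes `= 1 mod 3`: product at most 1.31 -/
theorem prod_one_mod_three (S : Finset ℕ) (hS : ∀ p ∈ S, p.Prime ∧ p % 3 = 1) :
    ∏ p ∈ S, cp p ≤ 131 / 100 := by
  have hsplit : ∏ p ∈ S, cp p = (∏ p ∈ S.filter (· < 103), cp p) *
      ∏ p ∈ S.filter (fun p => ¬ p < 103), cp p := (prod_filter_mul_prod_filter_not S _ _).symm
  have h1 : ∏ p ∈ S.filter (· < 103), cp p ≤
      ∏ p ∈ ({7, 13, 19, 31, 37, 43, 61, 67, 73, 79, 97} : Finset ℕ), cp p := by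
    refine prod_le_of_subset (fun p hp => ?_) (fun p hp => one_le_cp ?_)
    · obtain ⟨hp1, hp2⟩ := mem_filter.1 hp
      obtain ⟨hp3, hp4⟩ := hS p hp1
      have hp5 : ∀ q < 103, q.Prime → q % 3 = 1 →
          q ∈ ({7, 13, 19, 31, 37, 43, 61, 67, 73, 79, 97} : Finset ℕ) := by decide +kernel
      exact hp5 p hp2 hp3 hp4
    · simp only [mem_insert, mem_singleton] at hp
      omega
  have h2 : ∏ p ∈ ({7, 13, 19, 31, 37, 43, 61, 67, 73, 79, 97} : Finset ℕ), cp p
      ≤ 1283 / 1000 := by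
    simp only [cp]
    norm_num
  have h3 : ∏ p ∈ S.filter (fun p => ¬ p < 103), cp p ≤ 300 / 296 := by
    have := tail_six 103 (by norm_num) (S.filter (fun p => ¬ p < 103)) (fun p hp => by
      obtain ⟨hp1, hp2⟩ := mem_filter.1 hp
      obtain ⟨hp3, hp4⟩ := hS p hp1
      have := hp3.eq_two_or_odd
      omega)
    exact this.trans (by norm_num)
  have h0 : 0 ≤ ∏ p ∈ S.filter (fun p => ¬ p < 103), cp p :=
    prod_nonneg fun p hp => zero_le_one.trans (one_le_cp (by
      have := (mem_filter.1 hp).2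
      omega))
  rw [hsplit]
  calc _ ≤ (1283 / 1000 : ℝ) * (300 / 296) := mul_le_mul (h1.trans h2) h3 h0 (by norm_num)
    _ ≤ _ := by norm_num

/-- the constant of a prime -/
noncomputable def Cst (p : ℕ) : ℝ :=
  if p = 2 then 29 / 10 else if p = 3 then 183 / 100 else if p = 5 then 131 / 100 else cp p

theorem Cst_bound {p : ℕ} (hp : p.Prime) : BoundAll (log p) (Cst p) := by
  intro f M
  unfold Cst
  split_ifs with h2 h3 h5
  · subst h2; exact one_prime2 f M
  · subst h3; exact one_prime3 f M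
  · subst h5; exact one_prime5 f M
  · have h7 : 7 ≤ p := by
      by_contra hcon
      push Not at hcon
      interval_cases p <;> first | omega | (revert hp; decide)
    exact one_prime p h7 f M

theorem one_le_Cst {p : ℕ} (hp : 2 ≤ p) : 1 ≤ Cst p := by
  unfold Cst
  split_ifs
  · norm_num
  · norm_num
  · norm_num
  · exact one_le_cp hp

theorem Cst_eq_cp {p : ℕ} (hp : 7 ≤ p) : Cst p = cp p := by
  unfold Cst
  rw [if_neg (by omega), if_neg (by omega), if_neg (by omega)]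

/-- w = 6 -/
theorem prod_Cst_hex (S : Finset ℕ) (hS : ∀ p ∈ S, p.Prime ∧ p % 3 = 1) :
    ∏ p ∈ S, Cst p ≤ 131 / 100 := by
  rw [prod_congr rfl fun p hp => Cst_eq_cp (p := p) ?_]
  · exact prod_one_mod_three S hS
  · obtain ⟨h1, h2⟩ := hS p hp
    by_contra hcon
    push Not at hcon
    interval_cases p <;> first | omega | (revert h1; decide)

/-- primes `>= 7`, plus possibly the primes in `T` -/
theorem prod_Cst_gen (T S : Finset ℕ) (hT : ∀ p ∈ T, 2 ≤ p)
    (hS : ∀ p ∈ S, p ∈ T ∨ (p.Prime ∧ 7 ≤ p)) :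
    ∏ p ∈ S, Cst p ≤ (∏ p ∈ T, Cst p) * (153 / 100) := by
  classical
  have hsub : S ⊆ T ∪ S.filter (fun p => p ∉ T) := by
    intro p hp
    by_cases h : p ∈ T
    · exact mem_union_left _ h
    · exact mem_union_right _ (mem_filter.2 ⟨hp, h⟩)
  have hf : ∀ p ∈ S.filter (fun p => p ∉ T), p.Prime ∧ 7 ≤ p := by
    intro p hp
    obtain ⟨hp1, hp2⟩ := mem_filter.1 hp
    rcases hS p hp1 with h | h
    · exact absurd h hp2
    · exact h
  have hdis : Disjoint T (S.filter (fun p => p ∉ T)) := by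
    rw [disjoint_right]
    intro p hp
    exact (mem_filter.1 hp).2
  calc ∏ p ∈ S, Cst p ≤ ∏ p ∈ T ∪ S.filter (fun p => p ∉ T), Cst p :=
        prod_le_of_subset hsub fun p hp => by
          rcases mem_union.1 hp with hp | hp
          · exact one_le_Cst (hT p hp)
          · exact one_le_Cst (by have := (hf p hp).2; omega)
    _ = (∏ p ∈ T, Cst p) * ∏ p ∈ S.filter (fun p => p ∉ T), cp p := by
        rw [prod_union hdis]
        congr 1
        exact prod_congr rfl fun p hp => Cst_eq_cp (hf p hp).2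
    _ ≤ _ := by
        apply mul_le_mul_of_nonneg_left (prod_ge_seven _ hf)
        exact prod_nonneg fun p hp => zero_le_one.trans (one_le_Cst (hT p hp))

/-- primes `>= 11`, plus possibly the primes in `T` -/
theorem prod_Cst_gen11 (T S : Finset ℕ) (hT : ∀ p ∈ T, 2 ≤ p)
    (hS : ∀ p ∈ S, p ∈ T ∨ (p.Prime ∧ 11 ≤ p)) :
    ∏ p ∈ S, Cst p ≤ (∏ p ∈ T, Cst p) * (131 / 100) := by
  classical
  have hsub : S ⊆ T ∪ S.filter (fun p => p ∉ T) := by
    intro p hp
    by_cases h : p ∈ T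
    · exact mem_union_left _ h
    · exact mem_union_right _ (mem_filter.2 ⟨hp, h⟩)
  have hf : ∀ p ∈ S.filter (fun p => p ∉ T), p.Prime ∧ 11 ≤ p := by
    intro p hp
    obtain ⟨hp1, hp2⟩ := mem_filter.1 hp
    rcases hS p hp1 with h | h
    · exact absurd h hp2
    · exact h
  have hdis : Disjoint T (S.filter (fun p => p ∉ T)) := by
    rw [disjoint_right]
    intro p hp
    exact (mem_filter.1 hp).2
  calc ∏ p ∈ S, Cst p ≤ ∏ p ∈ T ∪ S.filter (fun p => p ∉ T), Cst p :=
        prod_le_of_subset hsub fun p hp => by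
          rcases mem_union.1 hp with hp | hp
          · exact one_le_Cst (hT p hp)
          · exact one_le_Cst (by have := (hf p hp).2; omega)
    _ = (∏ p ∈ T, Cst p) * ∏ p ∈ S.filter (fun p => p ∉ T), cp p := by
        rw [prod_union hdis]
        congr 1
        exact prod_congr rfl fun p hp => Cst_eq_cp (by have := (hf p hp).2; omega)
    _ ≤ _ := by
        apply mul_le_mul_of_nonneg_left (prod_ge_eleven _ hf)
        exact prod_nonneg fun p hp => zero_le_one.trans (one_le_Cst (hT p hp))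

/-- w = 4 -/
theorem prod_Cst_gauss (S : Finset ℕ) (hS : ∀ p ∈ S, p.Prime ∧ p % 4 = 1) :
    ∏ p ∈ S, Cst p ≤ 172 / 100 := by
  have h := prod_Cst_gen11 {5} S (by simp) (fun p hp => by
    obtain ⟨h1, h2⟩ := hS p hp
    by_cases h5 : p = 5
    · left; simp [h5]
    · right
      refine ⟨h1, ?_⟩
      by_contra hcon
      push Not at hcon
      interval_cases p <;> first | omega | (revert h1; decide))
  refine h.trans ?_
  simp [Cst]
  norm_num

/-- w = 2, 2 not in S -/
theorem prod_Cst_odd (S : Finset ℕ) (hS : ∀ p ∈ S, p.Prime ∧ p ≠ 2) :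
    ∏ p ∈ S, Cst p ≤ 367 / 100 := by
  have h := prod_Cst_gen {3, 5} S (by simp) (fun p hp => by
    obtain ⟨h1, h2⟩ := hS p hp
    by_cases h5 : p = 3 ∨ p = 5
    · left; simpa using h5
    · right
      refine ⟨h1, ?_⟩
      by_contra hcon
      push Not at hcon h5
      interval_cases p <;> first | omega | (revert h1; decide))
  refine h.trans ?_
  rw [prod_pair (by norm_num)]
  simp [Cst]
  norm_num

/-- no 2, no 3 -/
theorem prod_Cst_no3 (S : Finset ℕ) (hS : ∀ p ∈ S, p.Prime ∧ p ≠ 2 ∧ p ≠ 3) :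
    ∏ p ∈ S, Cst p ≤ 201 / 100 := by
  have h := prod_Cst_gen {5} S (by simp) (fun p hp => by
    obtain ⟨h1, h2, h3⟩ := hS p hp
    by_cases h5 : p = 5
    · left; simp [h5]
    · right
      refine ⟨h1, ?_⟩
      by_contra hcon
      push Not at hcon
      interval_cases p <;> first | omega | (revert h1; decide))
  refine h.trans ?_
  simp [Cst]
  norm_num

/-- no 2, no 5 -/
theorem prod_Cst_no5 (S : Finset ℕ) (hS : ∀ p ∈ S, p.Prime ∧ p ≠ 2 ∧ p ≠ 5) :
    ∏ p ∈ S, Cst p ≤ 28 / 10 := by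
  have h := prod_Cst_gen {3} S (by simp) (fun p hp => by
    obtain ⟨h1, h2, h3⟩ := hS p hp
    by_cases h5 : p = 3
    · left; simp [h5]
    · right
      refine ⟨h1, ?_⟩
      by_contra hcon
      push Not at hcon
      interval_cases p <;> first | omega | (revert h1; decide))
  refine h.trans ?_
  simp [Cst]
  norm_num

/-- only primes at least 11 (besides 2) -/
theorem prod_Cst_ge11 (S : Finset ℕ) (hS : ∀ p ∈ S, p.Prime ∧ 11 ≤ p) :
    ∏ p ∈ S, Cst p ≤ 131 / 100 := by
  rw [prod_congr rfl fun p hp => Cst_eq_cp (p := p) (by have := (hS p hp).2; omega)]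
  exact prod_ge_eleven S hS

end Pool.Agent.Work.DC28
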